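import Pool.Agent.V5helper23.PF.Stm

set_option autoImplicit false

open MeasureTheory Set Real Filter Topology
open scoped ENNReal NNReal

namespace Pool.Agent.V5helper17.PF

theorem map_unit (l : ℝ) (hl : 0 < l) :
    Measure.map (fun x : ℝ => l * x) (volume.restrict (Ioo (0:ℝ) 1)) =
      ENNReal.ofReal |l⁻¹| • volume.restrict (Ioo 0 l) := by
  have hm : Measurable (fun x : ℝ => l * x) := measurable_const_mul l
  have h1 : (fun x : ℝ => l * x) ⁻¹' Ioo 0 l = Ioo 0 1 := by
    ext x
    simp only [mem_preimage, mem_Ioo]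
    constructor
    · rintro ⟨h1, h2⟩
      exact ⟨by by_contra h; push Not at h; nlinarith, by by_contra h; push Not at h; nlinarith⟩
    · rintro ⟨h1, h2⟩
      exact ⟨by positivity, by nlinarith⟩
  rw [← h1, ← Measure.restrict_map hm measurableSet_Ioo, Real.map_volume_mul_left hl.ne',
    Measure.restrict_smul]

theorem t_SCA : Pool.Agent.V5helper23.PF.S_SCA := by
  intro l0 l1 f h0 h1 hf
  have hm : ∀ l : ℝ, Measurable (fun x : ℝ => l * x) := fun l => measurable_const_mul l
  have hg : Measure.map (Prod.map (fun x : ℝ => l0 * x) (fun x : ℝ => l1 * x))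
      (volume.restrict (Ioo (0:ℝ) 1 ×ˢ Ioo (0:ℝ) 1)) =
      (ENNReal.ofReal |l0⁻¹| * ENNReal.ofReal |l1⁻¹|) • volume.restrict (Ioo 0 l0 ×ˢ Ioo 0 l1) := by
    rw [Measure.volume_eq_prod, ← Measure.prod_restrict, ← Measure.prod_restrict,
      ← Measure.map_prod_map _ _ (hm l0) (hm l1), map_unit l0 h0, map_unit l1 h1,
      Measure.prod_smul_left, Measure.prod_smul_right, smul_smul]
  have h2 : MemLp f 2 (Measure.map (Prod.map (fun x : ℝ => l0 * x) (fun x : ℝ => l1 * x))
      (volume.restrict (Ioo (0:ℝ) 1 ×ˢ Ioo (0:ℝ) 1))) := by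
    rw [hg]
    exact hf.smul_measure (ENNReal.mul_ne_top ENNReal.ofReal_ne_top ENNReal.ofReal_ne_top)
  exact h2.comp_of_map ((hm l0).prodMap (hm l1)).aemeasurable

end Pool.Agent.V5helper17.PF
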